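import Pool.Agent.helper75.IQ.Spec

set_option autoImplicit false

namespace Pool.Agent.helper75.IQ

open MeasureTheory Set Topology Filter

/-- the open cylinder -/
def EXT_C (R : ℝ) : Set Sp := {p | nq (pr p) < R ^ 2}

theorem EXT_nqc : Continuous fun p : Sp => nq (pr p) := by
  unfold nq pr
  fun_prop

theorem EXT_open (R : ℝ) : IsOpen (EXT_C R) := isOpen_lt EXT_nqc continuous_const

theorem EXT_cont {R : ℝ} (c g : Sp → ℝ) (hc : ContinuousOn c (EXT_C R)) (hg : Continuous g)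
    (hs : tsupport g ⊆ EXT_C R) : Continuous fun p => c p * g p := by
  refine continuous_of_tsupport fun x hx => ?_
  have hx2 : x ∈ tsupport g := closure_mono (Function.support_mul_subset_right c g) hx
  exact (hc.continuousAt ((EXT_open R).mem_nhds (hs hx2))).mul hg.continuousAt

theorem EXT_int {R : ℝ} (c g : Sp → ℝ) (hc : ContinuousOn c (EXT_C R)) (hg : Continuous g)
    (hs : tsupport g ⊆ EXT_C R) (hcs : HasCompactSupport g) : Integrable (fun p => c p * g p) := by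
  refine (EXT_cont c g hc hg hs).integrable_of_hasCompactSupport ?_
  exact hcs.mul_left

theorem EXT_Test {R : ℝ} {ψ : Sp → ℝ} (h : Test R ψ) (v : Sp) :
    Continuous (fun p => fderiv ℝ ψ p v) ∧ tsupport (fun p => fderiv ℝ ψ p v) ⊆ EXT_C R ∧
      HasCompactSupport (fun p => fderiv ℝ ψ p v) := by
  refine ⟨?_, (tsupport_fderiv_apply_subset ℝ v).trans fun p hp => h.sup p hp, h.cs.fderiv_apply ℝ v⟩
  exact (h.c1.continuous_fderiv one_ne_zero).clm_apply continuous_const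

theorem EXT_intd {R : ℝ} (c : Sp → ℝ) (hc : ContinuousOn c (EXT_C R)) {ψ : Sp → ℝ} (h : Test R ψ) (v : Sp) :
    Integrable (fun p => c p * fderiv ℝ ψ p v) := by
  obtain ⟨h1, h2, h3⟩ := EXT_Test h v
  exact EXT_int c _ hc h1 h2 h3

theorem EXT_zero {R : ℝ} (c : Sp → ℝ) (hc : ContinuousOn c (EXT_C R)) (v : Sp)
    (hv : ∀ (p : Sp) (r : ℝ), c (p + r • v) = c p) {ψ : Sp → ℝ} (h : Test R ψ) :
    ∫ p, c p * fderiv ℝ ψ p v = 0 := by
  have hd : Differentiable ℝ ψ := h.c1.differentiable one_ne_zero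
  have i1 : (volume : Measure (ℝ × ℝ)).IsAddHaarMeasure := Measure.prod.instIsAddHaarMeasure _ _
  have i2 : (volume : Measure Sp).IsAddHaarMeasure := Measure.prod.instIsAddHaarMeasure _ _
  have h1 := integral_bilinear_hasLineDerivAt_right_eq_neg_left_of_integrable (μ := (volume : Measure Sp))
    (f := c) (f' := fun _ => 0) (g := ψ) (g' := fun p => fderiv ℝ ψ p v) (v := v)
    (B := ContinuousLinearMap.mul ℝ ℝ) (by simp) (EXT_intd c hc h v)
    (EXT_int c ψ hc hd.continuous (fun p hp => h.sup p hp) h.cs) (fun x _ => by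
      have : (fun t : ℝ => c (x + t • v)) = fun _ => c x := funext fun t => hv x t
      show HasDerivAt (fun t : ℝ => c (x + t • v)) 0 0
      rw [this]
      exact hasDerivAt_const _ _) (fun x _ => (hd x).hasFDerivAt.hasLineDerivAt v)
  simpa using h1

theorem EXT_set {F E T : Set Sp} (hF : MeasurableSet F) (hE : MeasurableSet E) (f : Sp → ℝ)
    (hf : ∀ p, p ∉ T → f p = 0) (hT : ∀ p ∈ T, p ∈ F ↔ p ∈ E) : ∫ p in F, f p = ∫ p in E, f p := by
  classical
  rw [← integral_indicator hF, ← integral_indicator hE]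
  congr 1
  funext p
  by_cases hp : p ∈ T
  · by_cases h : p ∈ F
    · rw [indicator_of_mem h, indicator_of_mem ((hT p hp).1 h)]
    · rw [indicator_of_notMem h, indicator_of_notMem fun h' => h ((hT p hp).2 h')]
  · rw [indicator_apply, indicator_apply, hf p hp]
    simp

theorem EXT_meas {κ R s : ℝ} {m : ℝ × ℝ → ℝ} {E : Set Sp} (hE : IsCompact E) (hm : TrapAt κ R m E) :
    MeasurableSet (fill R s m E) ∧ ContinuousOn (fun p : Sp => s * (p.2.2 - m (pr p))) (EXT_C R) := by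
  have hc : ContinuousOn (fun p : Sp => s * (p.2.2 - m (pr p))) (EXT_C R) := by
    have h1 : ContinuousOn (fun p : Sp => m (pr p)) (EXT_C R) := by
      refine hm.cm.comp ?_ fun p hp => hp
      unfold pr
      fun_prop
    have h2 : ContinuousOn (fun p : Sp => p.2.2) (EXT_C R) := by fun_prop
    exact continuousOn_const.mul (h2.sub h1)
  refine ⟨?_, hc⟩
  have h1 : IsOpen (EXT_C R ∩ (fun p : Sp => s * (p.2.2 - m (pr p))) ⁻¹' Ioi 0) :=
    hc.isOpen_inter_preimage (EXT_open R) isOpen_Ioi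
  have h2 : fill R s m E = (EXT_C R \ (EXT_C R ∩ (fun p : Sp => s * (p.2.2 - m (pr p))) ⁻¹' Ioi 0))
      ∪ (EXT_C R ∩ E) := by
    ext p
    constructor
    · rintro ⟨hp1, hp2 | hp2⟩
      · left
        refine ⟨hp1, fun h => ?_⟩
        exact absurd h.2 (not_lt.2 hp2)
      · right
        exact ⟨hp1, hp2⟩
    · rintro (⟨hp1, hp2⟩ | ⟨hp1, hp2⟩)
      · refine ⟨hp1, Or.inl ?_⟩
        by_contra h
        exact hp2 ⟨hp1, not_le.1 h⟩
      · exact ⟨hp1, Or.inr hp2⟩
  rw [h2]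
  exact ((EXT_open R).measurableSet.diff h1.measurableSet).union
    ((EXT_open R).measurableSet.inter hE.isClosed.measurableSet)

/-- the decomposition of a test function -/
theorem EXT_dec {κ R s : ℝ} {m : ℝ × ℝ → ℝ} {E : Set Sp} (hE : IsCompact E) (hm : TrapAt κ R m E)
    (hs : s = 1 ∨ s = -1) {ψ : Sp → ℝ} (h : Test R ψ) :
    ∃ ψ1 ψ2 : Sp → ℝ, (∀ p, ψ p = ψ1 p + ψ2 p) ∧ Test R ψ1 ∧ tsupport ψ1 ⊆ fill R s m E ∧ Side R s m ψ2 ∧
      ((∀ p, 0 ≤ ψ p) → ∀ p, 0 ≤ ψ2 p) := by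
  obtain ⟨-, hcon⟩ := EXT_meas (s := s) hE hm
  set K : Set Sp := tsupport ψ ∩ (fun p : Sp => s * (p.2.2 - m (pr p))) ⁻¹' Iic 0 with hK
  have hKc : IsCompact K := by
    have h1 : ContinuousOn (fun p : Sp => s * (p.2.2 - m (pr p))) (tsupport ψ) :=
      hcon.mono fun p hp => h.sup p hp
    have h2 : IsClosed K := h1.preimage_isClosed_of_isClosed (isClosed_tsupport ψ) isClosed_Iic
    exact h.cs.of_isClosed_subset h2 inter_subset_left
  have hKU : K ⊆ interior (fill R s m E) := by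
    rintro p ⟨hp1, hp2⟩
    have hpC : p ∈ EXT_C R := h.sup p hp1
    have hp3 : s * (p.2.2 - m (pr p)) ≤ 0 := hp2
    rcases lt_or_eq_of_le hp3 with hlt | heq
    · have h1 : IsOpen (EXT_C R ∩ (fun p : Sp => s * (p.2.2 - m (pr p))) ⁻¹' Iio 0) :=
        hcon.isOpen_inter_preimage (EXT_open R) isOpen_Iio
      refine mem_interior.2 ⟨_, ?_, h1, ⟨hpC, hlt⟩⟩
      rintro q ⟨hq1, hq2⟩
      exact ⟨hq1, Or.inl (le_of_lt hq2)⟩
    · have h0 : p.2.2 = m (pr p) := by
        rcases hs with rfl | rfl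
        · linarith
        · linarith
      have h1 : p ∈ interior E := by
        have h2 := hm.sec (pr p) hpC
        have h3 : ((pr p).1, (pr p).2, m (pr p)) = p := by
          rw [← h0]; rfl
        rw [h3] at h2
        exact h2
      refine mem_interior.2 ⟨EXT_C R ∩ interior E, ?_, (EXT_open R).inter isOpen_interior, ⟨hpC, h1⟩⟩
      rintro q ⟨hq1, hq2⟩
      exact ⟨hq1, Or.inr (interior_subset hq2)⟩
  obtain ⟨L, hL, hKL, hLF⟩ := exists_compact_between hKc isOpen_interior hKU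
  obtain ⟨χ, hχ1, hχ0, hχ⟩ := exists_contMDiffMap_one_nhds_of_subset_interior (modelWithCornersSelf ℝ Sp)
    (n := (1 : ℕ∞)) hKc.isClosed hKL
  have hχc : ContDiff ℝ 1 (fun p => χ p) := by
    have := χ.contMDiff.contDiff
    exact_mod_cast this
  have hχL : tsupport (fun p => χ p) ⊆ L := by
    refine closure_minimal ?_ hL.isClosed
    intro p hp
    by_contra hpL
    exact hp (hχ0 p hpL)
  refine ⟨fun p => χ p * ψ p, fun p => (1 - χ p) * ψ p, fun p => by ring, ⟨hχc.mul h.c1, h.cs.mul_left, ?_⟩,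
    ?_, ⟨(contDiff_const.sub hχc).mul h.c1, h.cs.mul_left, ?_⟩, fun h0 p => ?_⟩
  · intro p hp
    exact h.sup p (closure_mono (Function.support_mul_subset_right _ _) hp)
  · intro p hp
    exact interior_subset (hLF (hχL (closure_mono (Function.support_mul_subset_left _ _) hp)))
  · intro p hp
    have hpψ : p ∈ tsupport ψ := closure_mono (Function.support_mul_subset_right _ _) hp
    refine ⟨h.sup p hpψ, ?_⟩
    by_contra hcon2
    have hpK : p ∈ K := ⟨hpψ, not_lt.1 hcon2⟩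
    have h1 : ∀ᶠ q in 𝓝 p, χ q = 1 := (eventually_nhdsSet_iff_forall.1 hχ1) p hpK
    refine absurd hp (notMem_tsupport_iff_eventuallyEq.2 ?_)
    filter_upwards [h1] with q hq
    show (1 - χ q) * ψ q = 0
    rw [hq]; ring
  · have h1 := (hχ p).2
    exact mul_nonneg (by linarith) (h0 p)

theorem EXT_main {κ R s : ℝ} {m : ℝ × ℝ → ℝ} {E : Set Sp} (hE : IsCompact E) (hm : TrapAt κ R m E)
    {ψ ψ1 ψ2 : Sp → ℝ} (h12 : ∀ p, ψ p = ψ1 p + ψ2 p) (h1 : Test R ψ1) (h1s : tsupport ψ1 ⊆ fill R s m E)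
    (h2 : Side R s m ψ2) (c : Sp → ℝ) (hc : ContinuousOn c (EXT_C R)) (v : Sp)
    (hv : ∀ (p : Sp) (r : ℝ), c (p + r • v) = c p) :
    ∫ p in fill R s m E, c p * fderiv ℝ ψ p v = ∫ p in E, c p * fderiv ℝ ψ2 p v := by
  have h2T : Test R ψ2 := ⟨h2.c1, h2.cs, fun p hp => (h2.sup p hp).1⟩
  have hd1 : Differentiable ℝ ψ1 := h1.c1.differentiable one_ne_zero
  have hd2 : Differentiable ℝ ψ2 := h2.c1.differentiable one_ne_zero
  have hfd : ∀ p, fderiv ℝ ψ p v = fderiv ℝ ψ1 p v + fderiv ℝ ψ2 p v := by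
    intro p
    have : ψ = ψ1 + ψ2 := funext h12
    rw [this, fderiv_add (hd1 p) (hd2 p)]
    rfl
  have e1 : ∫ p in fill R s m E, c p * fderiv ℝ ψ p v
      = ∫ p in fill R s m E, (c p * fderiv ℝ ψ1 p v + c p * fderiv ℝ ψ2 p v) := by
    congr 1
    funext p
    rw [hfd]; ring
  rw [e1, integral_add (EXT_intd c hc h1 v).integrableOn (EXT_intd c hc h2T v).integrableOn]
  have e2 : ∫ p in fill R s m E, c p * fderiv ℝ ψ1 p v = 0 := by
    rw [setIntegral_eq_integral_of_forall_compl_eq_zero, EXT_zero c hc v hv h1]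
    intro p hp
    have hp2 : p ∉ tsupport (fun q => fderiv ℝ ψ1 q v) := fun h =>
      hp (h1s (tsupport_fderiv_apply_subset ℝ v h))
    have h3 : fderiv ℝ ψ1 p v = 0 := image_eq_zero_of_notMem_tsupport (f := fun q => fderiv ℝ ψ1 q v) hp2
    rw [h3, mul_zero]
  rw [e2, zero_add]
  refine EXT_set (T := tsupport ψ2) (EXT_meas hE hm).1 hE.isClosed.measurableSet _ ?_ ?_
  · intro p hp
    have hp2 : p ∉ tsupport (fun q => fderiv ℝ ψ2 q v) := fun h =>
      hp (tsupport_fderiv_apply_subset ℝ v h)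
    have h3 : fderiv ℝ ψ2 p v = 0 := image_eq_zero_of_notMem_tsupport (f := fun q => fderiv ℝ ψ2 q v) hp2
    rw [h3, mul_zero]
  · intro p hp
    obtain ⟨hp1, hp2⟩ := h2.sup p hp
    constructor
    · rintro ⟨-, h3 | h3⟩
      · exact absurd hp2 (not_lt.2 h3)
      · exact h3
    · intro h3
      exact ⟨hp1, Or.inr h3⟩

theorem EXT (hHGT : HGT_stmt) : EXT_stmt := by
  intro κ τ R m E hκ hE hm s hs hS ψ hψ
  obtain ⟨ψ1, ψ2, h12, h1, h1s, h2, hpos⟩ := EXT_dec hE hm hs hψ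
  have hCon := hS ψ2 h2
  have hdh : ContinuousOn (dh κ τ R) (Iio (R ^ 2)) := (hHGT κ τ R hκ hm.r0 hm.rk).2.2.2.2.2
  have h2T : Test R ψ2 := ⟨h2.c1, h2.cs, fun p hp => (h2.sup p hp).1⟩
  have hdhc : ContinuousOn (fun p : Sp => dh κ τ R (nq (pr p))) (EXT_C R) :=
    hdh.comp EXT_nqc.continuousOn fun p hp => hp
  have hone : ContinuousOn (fun _ : Sp => (1 : ℝ)) (EXT_C R) := continuousOn_const
  have hcx : ContinuousOn (fun p : Sp => s * (2 * p.1 * dh κ τ R (nq (pr p)))) (EXT_C R) := by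
    have h3 : ContinuousOn (fun p : Sp => 2 * p.1) (EXT_C R) := by fun_prop
    exact continuousOn_const.mul (h3.mul hdhc)
  have hcy : ContinuousOn (fun p : Sp => s * (2 * p.2.1 * dh κ τ R (nq (pr p)))) (EXT_C R) := by
    have h3 : ContinuousOn (fun p : Sp => 2 * p.2.1) (EXT_C R) := by fun_prop
    exact continuousOn_const.mul (h3.mul hdhc)
  have hlam : ContinuousOn (fun p : Sp => lam κ (nq (pr p)) ^ 2) (EXT_C R) := by
    refine ContinuousOn.pow ?_ 2
    unfold lam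
    refine ContinuousOn.inv₀ ?_ ?_
    · exact (continuous_const.add (continuous_const.mul EXT_nqc)).continuousOn
    · intro p hp
      have h3 : nq (pr p) < R ^ 2 := hp
      have h4 := hm.rk
      have h5 : κ * R ^ 2 ≤ κ * nq (pr p) := mul_le_mul_of_nonpos_left h3.le hκ
      have h6 : 0 < 1 + κ / 4 * nq (pr p) := by nlinarith
      exact h6.ne'
  have hvx : ∀ (p : Sp) (r : ℝ), (fun p : Sp => s * (2 * p.1 * dh κ τ R (nq (pr p)))) (p + r • ((0, 0, 1) : Sp))
      = (fun p : Sp => s * (2 * p.1 * dh κ τ R (nq (pr p)))) p := by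
    intro p r
    simp [pr]
  have hvy : ∀ (p : Sp) (r : ℝ), (fun p : Sp => s * (2 * p.2.1 * dh κ τ R (nq (pr p)))) (p + r • ((0, 0, 1) : Sp))
      = (fun p : Sp => s * (2 * p.2.1 * dh κ τ R (nq (pr p)))) p := by
    intro p r
    simp [pr]
  have hvl : ∀ (p : Sp) (r : ℝ), (fun p : Sp => lam κ (nq (pr p)) ^ 2) (p + r • ((0, 0, 1) : Sp))
      = (fun p : Sp => lam κ (nq (pr p)) ^ 2) p := by
    intro p r
    simp [pr]
  constructor
  · have e1 := EXT_main hE hm h12 h1 h1s h2 (fun _ => 1) hone (1, 0, 0) (fun _ _ => rfl)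
    have e2 := EXT_main hE hm h12 h1 h1s h2 _ hcx (0, 0, 1) hvx
    have e3 : ∫ p in fill R s m E, (fderiv ℝ ψ p (1, 0, 0) + s * (2 * p.1 * dh κ τ R (nq (pr p))) *
        fderiv ℝ ψ p (0, 0, 1)) = ∫ p in fill R s m E, ((1 : ℝ) * fderiv ℝ ψ p (1, 0, 0) +
          s * (2 * p.1 * dh κ τ R (nq (pr p))) * fderiv ℝ ψ p (0, 0, 1)) := by
      congr 1
      funext p
      rw [one_mul]
    rw [e3, integral_add (EXT_intd _ hone hψ _).integrableOn (EXT_intd _ hcx hψ _).integrableOn, e1, e2,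
      ← integral_add (EXT_intd _ hone h2T _).integrableOn (EXT_intd _ hcx h2T _).integrableOn]
    refine Eq.trans ?_ hCon.x
    congr 1
    funext p
    rw [one_mul]
  · have e1 := EXT_main hE hm h12 h1 h1s h2 (fun _ => 1) hone (0, 1, 0) (fun _ _ => rfl)
    have e2 := EXT_main hE hm h12 h1 h1s h2 _ hcy (0, 0, 1) hvy
    have e3 : ∫ p in fill R s m E, (fderiv ℝ ψ p (0, 1, 0) + s * (2 * p.2.1 * dh κ τ R (nq (pr p))) *
        fderiv ℝ ψ p (0, 0, 1)) = ∫ p in fill R s m E, ((1 : ℝ) * fderiv ℝ ψ p (0, 1, 0) +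
          s * (2 * p.2.1 * dh κ τ R (nq (pr p))) * fderiv ℝ ψ p (0, 0, 1)) := by
      congr 1
      funext p
      rw [one_mul]
    rw [e3, integral_add (EXT_intd _ hone hψ _).integrableOn (EXT_intd _ hcy hψ _).integrableOn, e1, e2,
      ← integral_add (EXT_intd _ hone h2T _).integrableOn (EXT_intd _ hcy h2T _).integrableOn]
    refine Eq.trans ?_ hCon.y
    congr 1
    funext p
    rw [one_mul]
  · intro h0
    rw [EXT_main hE hm h12 h1 h1s h2 _ hlam (0, 0, 1) hvl]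
    exact hCon.t (hpos h0)

end Pool.Agent.helper75.IQ
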